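import Pool.Agent.N641.VB.Stm4
import Pool.Agent.N887.VB.EXS
import Pool.Agent.N232.VB.TM2
import Pool.Agent.N966.VB.TM1

/-!
Project VB (helper641), leaf FT1: structures definable in an algebra have finitely many types, by helper602.
-/

set_option autoImplicit false

namespace Pool.Agent.N602.VB

open Pool.Agent.N641.VB FirstOrder FirstOrder.Language
open Pool.Agent.N887.VB.ExsAux

theorem cell_append_le {A : Type} [BooleanAlgebra A] {n k : ℕ} (p : Fin n → A) (v : Fin k → A)
    (ε : Fin (n + k) → Bool) :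
    cell (Fin.append p v) ε ≤ cell p (fun i => ε (Fin.castAdd k i)) := by
  classical
  unfold cell
  refine Finset.le_inf fun i _ => ?_
  refine (Finset.inf_le (Finset.mem_univ (Fin.castAdd k i))).trans ?_
  rw [Fin.append_left]

theorem dv_of_le {M : Type} [AddCommMonoid M] {A : Type} [BooleanAlgebra A] {mu : A → M} (hm : AM mu)
    {a b : A} (h : b ≤ a) : ft mu b ∈ Dv (ft mu a) := by
  refine ⟨⟨A, inferInstance, mu, b, hm, rfl⟩, ft mu (a \ b), ⟨A, inferInstance, mu, a \ b, hm, rfl⟩, ?_⟩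
  rw [← ft_sup hm b (a \ b) disjoint_sdiff_self_right, sup_sdiff_cancel_right h]

theorem dv_cell {M : Type} [AddCommMonoid M] {A : Type} [BooleanAlgebra A] {mu : A → M} (hm : AM mu)
    {n k : ℕ} (p : Fin n → A) (v : Fin k → A) (ε : Fin (n + k) → Bool) :
    ft mu (cell (Fin.append p v) ε) ∈ Dv (ft mu (cell p (fun i => ε (Fin.castAdd k i)))) :=
  dv_of_le hm (cell_append_le p v ε)

/-- FT1: structures definable in an algebra have finitely many types -/
theorem FT1 : S_FT1 := by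
  intro L M _ _ n S p bo mu hEnc hm hDv k
  choose ρR hR using hEnc.rel
  choose ρF hF using hEnc.fun_
  have hS : @JJ M L n ρR ρF ℕ bo mu p = S := JJ_eq ρR ρF S p bo mu hR hF
  subst hS
  have e1 : ∀ (v : Fin k → ℕ), (fun i => Fin.append p v (Fin.castAdd k i)) = p := fun v =>
    funext fun i => Fin.append_left p v i
  have e2 : ∀ (v : Fin k → ℕ), (fun j => Fin.append p v (Fin.natAdd n j)) = v := fun v =>
    funext fun i => Fin.append_right p v i
  have key : ∀ v v' : Fin k → ℕ,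
      (∀ ε, @ft M ℕ bo mu (@cell ℕ bo (n + k) (Fin.append p v) ε) =
        @ft M ℕ bo mu (@cell ℕ bo (n + k) (Fin.append p v') ε)) →
      ∀ χ : L.Formula (Fin k), @Formula.Realize L ℕ (@JJ M L n ρR ρF ℕ bo mu p) _ χ v →
        @Formula.Realize L ℕ (@JJ M L n ρR ρF ℕ bo mu p) _ χ v' := by
    intro v v' hc χ h
    have h1 := transfer (tame_JJ Pool.Agent.N966.VB.TM1 (Pool.Agent.N232.VB.TM2 Pool.Agent.N966.VB.TM1) ρR ρF
      (χ.relabel (Sum.inr : Fin k → Fin n ⊕ Fin k))) bo bo mu mu (Fin.append p v) (Fin.append p v') hm hm hc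
    rw [e1 v, e2 v, e1 v', e2 v', @Formula.realize_relabel, @Formula.realize_relabel] at h1
    exact h1 h
  have hfin : (Set.range fun v : Fin k → ℕ => fun ε => @ft M ℕ bo mu (@cell ℕ bo (n + k)
      (Fin.append p v) ε)).Finite := by
    refine Set.Finite.subset (Set.Finite.pi' (fun ε : Fin (n + k) → Bool =>
      hDv (fun i => ε (Fin.castAdd k i)))) ?_
    rintro _ ⟨v, rfl⟩ ε
    exact @dv_cell M _ ℕ bo mu hm n k p v ε
  classical
  refine (hfin.image (fun F => if h : ∃ v : Fin k → ℕ, (fun ε => @ft M ℕ bo mu (@cell ℕ bo (n + k)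
      (Fin.append p v) ε)) = F then {χ : L.Formula (Fin k) | @Formula.Realize L ℕ
        (@JJ M L n ρR ρF ℕ bo mu p) _ χ h.choose} else ∅)).subset ?_
  rintro _ ⟨v, rfl⟩
  refine ⟨_, ⟨v, rfl⟩, ?_⟩
  have hex : ∃ v' : Fin k → ℕ, (fun ε => @ft M ℕ bo mu (@cell ℕ bo (n + k) (Fin.append p v') ε)) =
      (fun ε => @ft M ℕ bo mu (@cell ℕ bo (n + k) (Fin.append p v) ε)) := ⟨v, rfl⟩
  refine (dif_pos hex).trans ?_
  have h1 := hex.choose_spec
  ext χ
  exact ⟨fun h => key _ _ (fun ε => congrFun h1 ε) χ h, fun h => key _ _ (fun ε => (congrFun h1 ε).symm) χ h⟩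

end Pool.Agent.N602.VB
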